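import Pool.Agent.PLX.StmtsA

set_option autoImplicit false

namespace Pool.Agent.PLX.H13

open Module

theorem lib_root {m : ℕ} {p : Polynomial ℤ} (hp : p ≠ 0) (hc : ∀ i, |p.coeff i| ≤ (m : ℤ)) {z : ℂ}
    (hz : Polynomial.aeval z p = 0) : ‖z‖ ≤ 1 + m := by
  have hinj : Function.Injective (algebraMap ℤ ℂ) := by
    rw [algebraMap_int_eq]
    exact Int.cast_injective
  have hq : p.map (algebraMap ℤ ℂ) ≠ 0 := (Polynomial.map_ne_zero_iff hinj).2 hp
  have hr : (p.map (algebraMap ℤ ℂ)).IsRoot z := by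
    rw [Polynomial.IsRoot.def, Polynomial.eval_map, ← Polynomial.aeval_def]
    exact hz
  have h1 := Polynomial.IsRoot.norm_lt_cauchyBound hq hr
  have h2 : Polynomial.cauchyBound (p.map (algebraMap ℤ ℂ)) ≤ (m : NNReal) + 1 := by
    unfold Polynomial.cauchyBound
    refine add_le_add ?_ (le_refl _)
    have h3 : (1 : NNReal) ≤ ‖(p.map (algebraMap ℤ ℂ)).leadingCoeff‖₊ := by
      rw [Polynomial.leadingCoeff_map_of_injective hinj]
      have h4 : p.leadingCoeff ≠ 0 := Polynomial.leadingCoeff_ne_zero.2 hp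
      have h5 : (1 : ℝ) ≤ ‖(algebraMap ℤ ℂ) p.leadingCoeff‖ := by
        rw [algebraMap_int_eq, eq_intCast, Complex.norm_intCast]
        have h6 : (1 : ℤ) ≤ |p.leadingCoeff| := Int.one_le_abs h4
        exact_mod_cast h6
      exact_mod_cast h5
    refine (div_le_self zero_le h3).trans ?_
    refine Finset.sup_le fun i _ => ?_
    rw [Polynomial.coeff_map]
    have h7 : ‖(algebraMap ℤ ℂ) (p.coeff i)‖ ≤ (m : ℝ) := by
      rw [algebraMap_int_eq, eq_intCast, Complex.norm_intCast]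
      exact_mod_cast hc i
    exact_mod_cast h7
  have h8 : (‖z‖₊ : ℝ) ≤ ((m : NNReal) + 1 : NNReal) := by
    exact_mod_cast (h1.le.trans h2)
  rw [coe_nnnorm] at h8
  push_cast at h8
  linarith

theorem lib_field (F : Subalgebra ℚ ℝ) (hF : FiniteDimensional ℚ F) :
    ∃ L : IntermediateField ℚ ℝ, L.toSubalgebra = F := by
  have h1 : IsField F := isField_of_isIntegral_of_isField' (R := ℚ) (Field.toIsField ℚ)
  refine ⟨F.toIntermediateField' h1, ?_⟩
  ext x
  rfl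

theorem lib : LibStmt := by
  classical
  intro F k e m N μ n hfd hk hμ hn hne
  obtain ⟨L, rfl⟩ := lib_field F hfd
  rw [IntermediateField.finrank_eq_finrank_subalgebra] at hk
  have hfd' : FiniteDimensional ℚ L := hfd
  have hk1 : 1 ≤ k := by
    rw [← hk]
    exact finrank_pos
  -- the elements
  obtain ⟨x, hx⟩ : ∃ x : Fin (k + 1) → L, ∀ i, ((x i : L) : ℝ) = μ i :=
    ⟨fun i => ⟨μ i, (hμ i).1⟩, fun i => rfl⟩
  have hpol : ∀ i, ∃ p : Polynomial ℤ, p ≠ 0 ∧ p.natDegree ≤ e ∧ (∀ j, |p.coeff j| ≤ (m : ℤ)) ∧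
      Polynomial.aeval (μ i) p = 0 := fun i => (hμ i).2
  choose p hp0 _ hpc hpr using hpol
  have hpx : ∀ i, Polynomial.aeval (x i) (p i) = 0 := by
    intro i
    have h1 : ((Polynomial.aeval (x i) (p i) : L) : ℝ) = Polynomial.aeval ((x i : L) : ℝ) (p i) := by
      have h2 := Polynomial.aeval_algHom_apply (L.val.restrictScalars ℤ) (x i) (p i)
      exact h2.symm
    rw [hx i, hpr i] at h1
    exact_mod_cast h1
  obtain ⟨D, hD⟩ : ∃ D : ℤ, D = ∏ i, (p i).leadingCoeff := ⟨_, rfl⟩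
  have hD0 : D ≠ 0 := by
    rw [hD]
    exact Finset.prod_ne_zero_iff.2 fun i _ => Polynomial.leadingCoeff_ne_zero.2 (hp0 i)
  have hDm : |(D : ℝ)| ≤ (m : ℝ) ^ (k + 1) := by
    rw [hD]
    push_cast
    rw [Finset.abs_prod]
    have h1 : ∏ i : Fin (k + 1), |((p i).leadingCoeff : ℝ)| ≤ ∏ _i : Fin (k + 1), (m : ℝ) := by
      refine Finset.prod_le_prod (fun i _ => abs_nonneg _) fun i _ => ?_
      have h2 := hpc i (p i).natDegree
      exact_mod_cast h2
    rw [Finset.prod_const, Finset.card_univ, Fintype.card_fin] at h1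
    exact h1
  -- the integral element
  obtain ⟨β, hβ⟩ : ∃ β : L, β = ∑ i, n i • (D • x i) := ⟨_, rfl⟩
  have hβint : IsIntegral ℤ β := by
    rw [hβ]
    refine IsIntegral.sum _ fun i _ => IsIntegral.smul _ ?_
    have h1 : D • x i = (∏ j ∈ Finset.univ.erase i, (p j).leadingCoeff) •
        ((p i).leadingCoeff • x i) := by
      rw [smul_smul, hD, mul_comm, Finset.mul_prod_erase Finset.univ
        (fun j => (p j).leadingCoeff) (Finset.mem_univ i)]
    rw [h1]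
    exact IsIntegral.smul _ (isIntegral_leadingCoeff_smul _ _ (hpx i))
  have hβval : ∀ (B : Type) [Field B] [Algebra ℚ B] (σ : L →ₐ[ℚ] B),
      σ β = (D : B) * ∑ i, (n i : B) * σ (x i) := by
    intro B _ _ σ
    rw [hβ, map_sum, Finset.mul_sum]
    refine Finset.sum_congr rfl fun i _ => ?_
    rw [map_zsmul, map_zsmul, zsmul_eq_mul, zsmul_eq_mul]
    ring
  have hβreal : ((β : L) : ℝ) = (D : ℝ) * ∑ i, (n i : ℝ) * μ i := by
    have h1 := hβval ℝ L.val
    have h2 : ∑ i, (n i : ℝ) * L.val (x i) = ∑ i, (n i : ℝ) * μ i :=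
      Finset.sum_congr rfl fun i _ => congrArg (fun y => (n i : ℝ) * y) (hx i)
    exact h1.trans (congrArg (fun y : ℝ => (D : ℝ) * y) h2)
  have hβ0 : β ≠ 0 := by
    intro h
    rw [h] at hβreal
    have h1 : (D : ℝ) * ∑ i, (n i : ℝ) * μ i = 0 := by
      rw [← hβreal]
      rfl
    rcases mul_eq_zero.1 h1 with h2 | h2
    · exact hD0 (by exact_mod_cast h2)
    · exact hne h2
  -- the norm
  have hnorm : 1 ≤ |(algebraMap ℚ ℝ) (Algebra.norm ℚ β)| := by
    have h1 : IsIntegral ℤ (Algebra.norm ℚ β) := Algebra.isIntegral_norm ℚ hβint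
    obtain ⟨y, hy⟩ := IsIntegrallyClosed.isIntegral_iff.1 h1
    have h2 : Algebra.norm ℚ β ≠ 0 := Algebra.norm_ne_zero_iff.2 hβ0
    have h3 : y ≠ 0 := by
      intro h
      apply h2
      rw [← hy, h, map_zero]
    rw [← hy]
    have h4 : (1 : ℤ) ≤ |y| := Int.one_le_abs h3
    simp only [algebraMap_int_eq, eq_intCast, eq_ratCast, Rat.cast_intCast]
    exact_mod_cast h4
  have hprod : 1 ≤ ∏ σ : L →ₐ[ℚ] ℂ, ‖σ β‖ := by
    have h1 := Algebra.norm_eq_prod_embeddings (K := ℚ) (L := L) ℂ β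
    rw [← norm_prod, ← h1]
    have h2 : ‖(algebraMap ℚ ℂ) (Algebra.norm ℚ β)‖ = |(algebraMap ℚ ℝ) (Algebra.norm ℚ β)| := by
      simp only [eq_ratCast]
      rw [← Complex.ofReal_ratCast, Complex.norm_real, Real.norm_eq_abs]
    rw [h2]
    exact hnorm
  -- the bounds
  obtain ⟨S, hS⟩ : ∃ S : ℝ, S = |∑ i, (n i : ℝ) * μ i| := ⟨_, rfl⟩
  obtain ⟨T, hT⟩ : ∃ T : ℝ, T = ((k : ℝ) + 1) * N * (1 + m) * (m : ℝ) ^ (k + 1) := ⟨_, rfl⟩
  have hT0 : 0 ≤ T := by
    rw [hT]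
    positivity
  have hbound : ∀ σ : L →ₐ[ℚ] ℂ, ‖σ β‖ ≤ T := by
    intro σ
    rw [hβval ℂ σ, norm_mul, hT]
    have h1 : ‖(D : ℂ)‖ ≤ (m : ℝ) ^ (k + 1) := by
      rw [Complex.norm_intCast]
      exact hDm
    have h2 : ‖∑ i, (n i : ℂ) * σ (x i)‖ ≤ ((k : ℝ) + 1) * N * (1 + m) := by
      refine (norm_sum_le _ _).trans ?_
      have h3 : ∀ i ∈ (Finset.univ : Finset (Fin (k + 1))), ‖(n i : ℂ) * σ (x i)‖ ≤ N * (1 + m) := by
        intro i _
        rw [norm_mul, Complex.norm_intCast]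
        refine mul_le_mul ?_ ?_ (norm_nonneg _) (Nat.cast_nonneg _)
        · exact_mod_cast hn i
        · refine lib_root (hp0 i) (hpc i) ?_
          have h4 := Polynomial.aeval_algHom_apply (σ.restrictScalars ℤ) (x i) (p i)
          rw [hpx i, map_zero] at h4
          exact h4
      have h5 := Finset.sum_le_card_nsmul _ _ _ h3
      rw [Finset.card_univ, Fintype.card_fin, nsmul_eq_mul] at h5
      push_cast at h5
      linarith
    calc ‖(D : ℂ)‖ * ‖∑ i, (n i : ℂ) * σ (x i)‖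
        ≤ (m : ℝ) ^ (k + 1) * (((k : ℝ) + 1) * N * (1 + m)) :=
          mul_le_mul h1 h2 (norm_nonneg _) (by positivity)
      _ = ((k : ℝ) + 1) * N * (1 + m) * (m : ℝ) ^ (k + 1) := by ring
  obtain ⟨σ₀, hσ₀⟩ : ∃ σ₀ : L →ₐ[ℚ] ℂ, ∀ y : L, σ₀ y = (((y : L) : ℝ) : ℂ) :=
    ⟨(Complex.ofRealAm.restrictScalars ℚ).comp L.val, fun y => rfl⟩
  have h0 : ‖σ₀ β‖ ≤ S * (m : ℝ) ^ (k + 1) := by
    rw [hσ₀, Complex.norm_real, Real.norm_eq_abs, hβreal, abs_mul, ← hS, mul_comm]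
    exact mul_le_mul_of_nonneg_left hDm (by rw [hS]; exact abs_nonneg _)
  have hcard : (Finset.univ.erase σ₀).card = k - 1 := by
    rw [Finset.card_erase_of_mem (Finset.mem_univ _), Finset.card_univ,
      AlgHom.card ℚ L ℂ, hk]
  rw [← Finset.mul_prod_erase Finset.univ (fun σ : L →ₐ[ℚ] ℂ => ‖σ β‖) (Finset.mem_univ σ₀)] at hprod
  have h6 : ∏ σ ∈ Finset.univ.erase σ₀, ‖σ β‖ ≤ T ^ (k - 1) := by
    have h7 := Finset.prod_le_prod (s := Finset.univ.erase σ₀) (f := fun σ : L →ₐ[ℚ] ℂ => ‖σ β‖)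
      (g := fun _ => T) (fun σ _ => norm_nonneg _) (fun σ _ => hbound σ)
    rw [Finset.prod_const, hcard] at h7
    exact h7
  refine hprod.trans ?_
  rw [← hS, ← hT]
  exact mul_le_mul h0 h6 (Finset.prod_nonneg fun σ _ => norm_nonneg _)
    (mul_nonneg (by rw [hS]; exact abs_nonneg _) (by positivity))

end Pool.Agent.PLX.H13
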